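import Mathlib

namespace Pool.Agent.Results.MP_89f45c_al.Finite

variable {F : Type} [Field F]

/-- exponent vectors of monomials, as a multiplicative monoid tagged with `σ` -/
def Mon (_σ : F ≃+* F) (n : ℕ) : Type := Multiplicative (Fin n → ℕ)

instance (σ : F ≃+* F) (n : ℕ) : CommMonoid (Mon σ n) :=
  inferInstanceAs (CommMonoid (Multiplicative (Fin n → ℕ)))

/-- the exponent vector of a monomial -/
def Mon.exp {σ : F ≃+* F} {n : ℕ} (k : Mon σ n) : Fin n → ℕ := Multiplicative.toAdd k

/-- the monomial of total degree `d` acts on coefficients by `σ ^ d` -/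
def deg (σ : F ≃+* F) (n : ℕ) : Mon σ n →* RingAut F where
  toFun k := (σ : RingAut F) ^ (∑ i, k.exp i)
  map_one' := by
    have : ∀ i, (1 : Mon σ n).exp i = 0 := fun _ => rfl
    simp [this]
  map_mul' k l := by
    have : ∀ i, (k * l).exp i = k.exp i + l.exp i := fun _ => rfl
    simp [this, Finset.sum_add_distrib, pow_add]

instance (σ : F ≃+* F) (n : ℕ) : MulSemiringAction (Mon σ n) F :=
  MulSemiringAction.compHom F (deg σ n)

/-- the skew polynomial ring -/
abbrev R (σ : F ≃+* F) (n : ℕ) : Type := SkewMonoidAlgebra F (Mon σ n)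

def N (σ : F ≃+* F) (a : F) : ℕ → F
  | 0 => 1
  | k + 1 => (σ : F → F)^[k] a * N σ a k

def mono (σ : F ≃+* F) {n : ℕ} (k : Fin n → ℕ) (a : Fin n → F) : F :=
  ∏ i, (σ : F → F)^[∑ j with j < i, k j] (N σ (a i) (k i))

def ev {σ : F ≃+* F} {n : ℕ} (f : R σ n) (a : Fin n → F) : F :=
  f.sum fun k c => c * mono σ k.exp a

def Aff (σ : F ≃+* F) (n : ℕ) : Set (Fin n → F) :=
  {a | ∀ i j, i ≠ j → σ (a j) * a i = σ (a i) * a j}

def V {σ : F ≃+* F} {n : ℕ} (J : Ideal (R σ n)) : Set (Fin n → F) :=
  {a | a ∈ Aff σ n ∧ ∀ f ∈ J, ev f a = 0}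

def I {σ : F ≃+* F} {n : ℕ} (S : Set (Fin n → F)) : Set (R σ n) :=
  {f | ∀ a ∈ S, ev f a = 0}

variable {σ : F ≃+* F} {n : ℕ}

lemma it (d : ℕ) (c : F) : (σ : F → F)^[d] c = ((σ : RingAut F) ^ d) c := by
  induction d generalizing c with
  | zero => rfl
  | succ d ih => rw [Function.iterate_succ_apply, ih, pow_succ]; rfl

lemma N_add (b : F) (k l : ℕ) :
    N σ b (k + l) = ((σ : RingAut F) ^ k) (N σ b l) * N σ b k := by
  induction l with
  | zero => simp [N]
  | succ l ih =>
    rw [← add_assoc, N, N, ih, it, it, map_mul, pow_add]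
    simp only [RingAut.mul_apply]; ring

lemma pow_fix {u : F} (hu : σ u = u) (d : ℕ) : ((σ : RingAut F) ^ d) u = u := by
  rw [← it]; exact Function.iterate_fixed hu d

lemma N_fix {u : F} (hu : σ u = u) (b : F) (k : ℕ) : N σ (u * b) k = u ^ k * N σ b k := by
  induction k with
  | zero => simp [N]
  | succ k ih => rw [N, N, ih, it, it, map_mul, pow_fix hu]; ring

lemma tele (b : F) (k : Fin n → ℕ) :
    ∏ i, ((σ : RingAut F) ^ (∑ j with j < i, k j)) (N σ b (k i)) = N σ b (∑ i, k i) := by
  induction n with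
  | zero => simp [N]
  | succ n ih =>
    rw [Fin.prod_univ_castSucc, Fin.sum_univ_castSucc (f := k), N_add, ← ih, mul_comm]
    congr 1
    · congr 2
      rw [Finset.sum_filter, Fin.sum_univ_castSucc]
      simp
    · refine Finset.prod_congr rfl fun i _ => ?_
      congr 2
      rw [Finset.sum_filter, Finset.sum_filter, Fin.sum_univ_castSucc]
      simp [(Fin.castSucc_lt_last i).not_gt]

lemma mono_eq {u : Fin n → F} (hu : ∀ i, σ (u i) = u i) (b : F) (k : Fin n → ℕ) :
    mono σ k (fun i => u i * b) = (∏ i, u i ^ k i) * N σ b (∑ i, k i) := by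
  rw [mono, ← tele, ← Finset.prod_mul_distrib]
  refine Finset.prod_congr rfl fun i _ => ?_
  rw [it, N_fix (hu i), map_mul, pow_fix]
  rw [map_pow, hu]

lemma factor {a : Fin n → F} (ha : a ∈ Aff σ n) :
    ∃ (u : Fin n → F) (b : F), (∀ i, σ (u i) = u i) ∧ a = fun i => u i * b := by
  by_cases h : ∀ i, a i = 0
  · exact ⟨fun _ => 0, 0, fun _ => by simp, funext fun i => by simp [h]⟩
  · push Not at h
    obtain ⟨j, hj⟩ := h
    refine ⟨fun i => a i / a j, a j, fun i => ?_, funext fun i => by field_simp⟩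
    by_cases hij : i = j
    · subst hij; simp [div_self hj]
    · have h1 := ha i j hij
      have h2 : σ (a j) ≠ 0 := by simpa using hj
      rw [map_div₀, div_eq_div_iff h2 hj, ← h1, mul_comm]

lemma mono_add {a : Fin n → F} (ha : a ∈ Aff σ n) (k l : Fin n → ℕ) :
    mono σ (k + l) a = ((σ : RingAut F) ^ (∑ i, k i)) (mono σ l a) * mono σ k a := by
  obtain ⟨u, b, hu, rfl⟩ := factor ha
  rw [mono_eq hu, mono_eq hu, mono_eq hu, map_mul, pow_fix (u := ∏ i, u i ^ l i)]
  · simp only [Pi.add_apply, pow_add, Finset.prod_mul_distrib, Finset.sum_add_distrib, N_add]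
    ring
  · simp [map_prod, map_pow, hu]

lemma N_conj (b c : F) (hc : c ≠ 0) (k : ℕ) :
    N σ (σ c * b / c) k * c = ((σ : RingAut F) ^ k) c * N σ b k := by
  induction k with
  | zero => simp [N]
  | succ k ih =>
    have h : ((σ : RingAut F) ^ k) c ≠ 0 := (map_ne_zero _).2 hc
    rw [N, N, mul_assoc, ih, it, it, map_div₀, map_mul, pow_succ]
    simp only [RingAut.mul_apply]
    field_simp

lemma mono_conj {a : Fin n → F} (ha : a ∈ Aff σ n) (c : F) (hc : c ≠ 0) (k : Fin n → ℕ) :
    mono σ k (fun i => σ c * a i / c) * c = ((σ : RingAut F) ^ (∑ i, k i)) c * mono σ k a := by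
  obtain ⟨u, b, hu, rfl⟩ := factor ha
  have : (fun i => σ c * (u i * b) / c) = fun i => u i * (σ c * b / c) := by
    funext i; ring
  rw [this, mono_eq hu, mono_eq hu, mul_assoc, N_conj b c hc]; ring

lemma conj_mem {a : Fin n → F} (ha : a ∈ Aff σ n) (c : F) :
    (fun i => σ c * a i / c) ∈ Aff σ n := by
  intro i j hij
  have := ha i j hij
  simp only [map_div₀, map_mul]
  calc _ = σ (σ c) / σ c * σ c / c * (σ (a j) * a i) := by ring
    _ = _ := by rw [this]; ring

/-- action of monomials -/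
def T (a : Aff σ n) : Mon σ n →* Module.End ℤ F where
  toFun k :=
    { toFun := fun c => ((σ : RingAut F) ^ (∑ i, k.exp i)) c * mono σ k.exp a
      map_add' := fun x y => by simp [add_mul]
      map_smul' := fun z x => by rw [map_zsmul, smul_mul_assoc]; rfl }
  map_one' := by
    have h : (1 : Mon σ n).exp = 0 := rfl
    ext
    simp [h, mono, N]
  map_mul' k l := by
    have h : (k * l).exp = k.exp + l.exp := rfl
    refine LinearMap.ext fun c => ?_
    simp only [h, mono_add a.2, Module.End.mul_apply, LinearMap.coe_mk, AddHom.coe_mk, map_mul,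
      Pi.add_apply, Finset.sum_add_distrib, pow_add, RingAut.mul_apply]
    ring

noncomputable def rho (a : Aff σ n) : R σ n →+* Module.End ℤ F :=
  SkewMonoidAlgebra.liftNCRingHom (Module.toModuleEnd ℤ F (S := F)) (T a) (by
    intro x y
    refine LinearMap.ext fun c => ?_
    have h : y • x = ((σ : RingAut F) ^ (∑ i, y.exp i)) x := rfl
    simp [T, h, mul_assoc])

lemma rho_single (a : Aff σ n) (k : Mon σ n) (d c : F) :
    rho a (SkewMonoidAlgebra.single k d) c
      = d * (((σ : RingAut F) ^ (∑ i, k.exp i)) c * mono σ k.exp a) := by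
  simp [rho, SkewMonoidAlgebra.liftNCRingHom, T]

lemma ev_single (a : Fin n → F) (k : Mon σ n) (d : F) :
    ev (SkewMonoidAlgebra.single k d : R σ n) a = d * mono σ k.exp a := by
  rw [ev, SkewMonoidAlgebra.sum_single_index (by simp)]

lemma ev_add (a : Fin n → F) (f g : R σ n) : ev (f + g) a = ev f a + ev g a := by
  rw [ev, SkewMonoidAlgebra.sum_add_index' (by simp) (by intros; ring)]; rfl

lemma ev_zero (a : Fin n → F) : ev (0 : R σ n) a = 0 := by
  rw [ev, SkewMonoidAlgebra.sum_zero_index]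

lemma rho_conj (a : Aff σ n) (c : F) (hc : c ≠ 0) (f : R σ n) :
    rho a f c = ev f (fun i => σ c * a.1 i / c) * c := by
  induction f using SkewMonoidAlgebra.induction_on with
  | zero => simp [ev_zero]
  | single k d => rw [rho_single, ev_single, mul_assoc, mono_conj a.2 c hc]
  | add f g hf hg => rw [map_add, LinearMap.add_apply, hf, hg, ev_add, add_mul]

lemma rho_one (a : Aff σ n) (f : R σ n) : rho a f 1 = ev f a := by
  rw [rho_conj a 1 one_ne_zero]; simp

def M (_a : Aff σ n) : Type := F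

instance (a : Aff σ n) : AddCommGroup (M a) := inferInstanceAs (AddCommGroup F)

noncomputable instance (a : Aff σ n) : Module (R σ n) (M a) :=
  Module.compHom F (rho a)

def M.mk (a : Aff σ n) (c : F) : M a := c
def M.val {a : Aff σ n} (c : M a) : F := c

lemma smul_val {a : Aff σ n} (f : R σ n) (c : M a) : (f • c).val = rho a f c.val := rfl

instance (a : Aff σ n) : IsSimpleModule (R σ n) (M a) := by
  rw [isSimpleModule_iff_toSpanSingleton_surjective]
  refine ⟨inferInstanceAs (Nontrivial F), fun x hx y => ?_⟩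
  refine ⟨SkewMonoidAlgebra.single 1 (y.val / x.val), ?_⟩
  have hx' : x.val ≠ 0 := hx
  have h : (1 : Mon σ n).exp = 0 := rfl
  show rho a (SkewMonoidAlgebra.single 1 (y.val / x.val)) x.val = y.val
  rw [rho_single]
  simp [h, mono, N, hx']

lemma coat (A P : Type) [Ring A] [AddCommGroup P] [Module A P] [IsSemisimpleModule A P]
    (S : Submodule A P) (x : P) (hx : x ∉ S) :
    ∃ K : Submodule A P, IsCoatom K ∧ S ≤ K ∧ x ∉ K := by
  obtain ⟨C, hC⟩ := exists_isCompl (S ⊔ Submodule.span A {x})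
  have h1 : S ⊔ C ≠ ⊤ := fun h => by
    have : x ∈ S ⊔ C := h ▸ Submodule.mem_top
    obtain ⟨s, hs, c, hc, e⟩ := Submodule.mem_sup.1 this
    have h2 : c ∈ S ⊔ Submodule.span A {x} := by
      rw [eq_sub_of_add_eq' e]
      exact sub_mem (Submodule.mem_sup_right (Submodule.mem_span_singleton_self x))
        (Submodule.mem_sup_left hs)
    have h3 : c = 0 := Submodule.disjoint_def.1 hC.disjoint c h2 hc
    rw [h3, add_zero] at e
    exact hx (e ▸ hs)
  obtain ⟨K, hK, hle⟩ := (eq_top_or_exists_le_coatom (S ⊔ C)).resolve_left h1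
  refine ⟨K, hK, le_sup_left.trans hle, fun h => hK.1 ?_⟩
  rw [eq_top_iff, ← hC.sup_eq_top]
  exact sup_le (sup_le (le_sup_left.trans hle) ((Submodule.span_singleton_le_iff_mem _ _).2 h))
    (le_sup_right.trans hle)

theorem result (F : Type) [Field F] [Finite F] (σ : F ≃+* F) (n : ℕ) (J : Ideal (R σ n)) :
    I (V J) = {f : R σ n | ∃ g ∈ J, ∃ h ∈ I (Aff σ n), f = g + h} := by
  classical
  ext f
  constructor
  · intro hf
    let P := ∀ a : Aff σ n, M a
    let Φ : R σ n →ₗ[R σ n] P := LinearMap.toSpanSingleton _ _ fun a => M.mk a 1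
    have hΦ : ∀ g a, (Φ g a).val = ev g a := fun g a => rho_one a g
    by_cases hm : Φ f ∈ Submodule.map Φ J
    · obtain ⟨g, hg, e⟩ := hm
      refine ⟨g, hg, f - g, fun a ha => ?_, by abel⟩
      rw [← hΦ (f - g) ⟨a, ha⟩, map_sub, e, sub_self]; rfl
    · exfalso
      obtain ⟨K, hK, hJK, hfK⟩ := coat (R σ n) P _ _ hm
      have : IsSimpleModule (R σ n) (P ⧸ K) := isSimpleModule_iff_isCoatom.2 hK
      have : ∃ a : Aff σ n, K.mkQ ∘ₗ LinearMap.single (R σ n) (fun a : Aff σ n => M a) a ≠ 0 := by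
        by_contra hh
        push Not at hh
        apply hfK
        have : Fintype (Aff σ n) := Fintype.ofFinite _
        have h0 : K.mkQ = 0 := LinearMap.pi_ext' fun a => by rw [hh a]; rfl
        have := LinearMap.congr_fun h0 (Φ f)
        simpa using this
      obtain ⟨a, ha⟩ := this
      let e := LinearEquiv.ofBijective _ (LinearMap.bijective_of_ne_zero ha)
      let l : R σ n →ₗ[R σ n] M a := e.symm.toLinearMap ∘ₗ K.mkQ ∘ₗ Φ
      have hl : ∀ g, l g = 0 ↔ Φ g ∈ K := fun g => by simp [l]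
      have hl1 : ∀ g, (l g).val = rho a g (l 1).val := fun g => by
        rw [← smul_val, ← map_smul, smul_eq_mul, mul_one]
      have hc : (l 1).val ≠ 0 := fun h => hfK ((hl f).1 (by
        have := hl1 f
        rw [h, map_zero] at this
        exact this))
      have hb : (fun i => σ (l 1).val * a.1 i / (l 1).val) ∈ V J := by
        refine ⟨conj_mem a.2 _, fun g hg => ?_⟩
        have h0 : l g = 0 := (hl g).2 (hJK ⟨g, hg, rfl⟩)
        have := hl1 g
        rw [h0, rho_conj a _ hc] at this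
        exact (mul_eq_zero.1 this.symm).resolve_right hc
      have := hl1 f
      rw [rho_conj a _ hc, hf _ hb, zero_mul] at this
      exact hfK ((hl f).1 this)
  · rintro ⟨g, hg, h, hh, rfl⟩ a ha
    rw [ev_add, ha.2 g hg, hh a ha.1, add_zero]

end Pool.Agent.Results.MP_89f45c_al.Finite
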